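import Pool.Agent.TH133.PW.EvDefs

/-!
# Common factors of the cohomology groups under algebraic correspondences: definitions
-/

open CategoryTheory AlgebraicGeometry Polynomial

set_option autoImplicit false

universe u v

namespace Run7.h488.CF

open Pool.Agent.H914 VarClass Obj WeilCohomology Pool.Agent.TH133.PW Pool.Agent.H447

section Alg

variable {K V : Type*} [Field K] [AddCommGroup V] [Module K V]

/-- The subspace `N` is stable under the operators in `S`. -/
def Stable (S : Set (Module.End K V)) (N : Submodule K V) : Prop := ∀ φ ∈ S, ∀ x ∈ N, φ x ∈ N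

/-- The values of `g : N → V / L` are in the image of `U'`. -/
def ValuedIn (U' : Submodule K V) {N L : Submodule K V} (g : N →ₗ[K] V ⧸ L) : Prop :=
  ∀ x : N, ∃ y ∈ U', g x = L.mkQ y

/-- The map `g : N → V / L` commutes with the operators in `S`: if `x' = φ x` and `g x` is the class of `y` in `U'` then
`g x'` is the class of `φ y`. -/
def Commutes (S : Set (Module.End K V)) (U' : Submodule K V) {N L : Submodule K V} (g : N →ₗ[K] V ⧸ L) : Prop :=
  ∀ φ ∈ S, ∀ (x x' : N) (y : V), y ∈ U' → (x' : V) = φ x → g x = L.mkQ y → g x' = L.mkQ (φ y)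

/-- The subspaces `U` and `U'` have no common factor under the operators in `S`: if `N ≤ U` and `L ≤ U'` are stable
subspaces and `g : N → U' / L` is a linear map which commutes with the operators in `S` then `g = 0`. -/
def NoCommonFactor (S : Set (Module.End K V)) (U U' : Submodule K V) : Prop :=
  ∀ N L : Submodule K V, N ≤ U → L ≤ U' → Stable S N → Stable S L → ∀ g : N →ₗ[K] V ⧸ L,
    ValuedIn U' g → Commutes S U' g → g = 0

/-- Some linear combination `φ` of the operators in `S` is annihilated on `U` and on `U'` by coprime polynomials: it has no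
common eigenvalue on `U` and `U'` over any extension field. -/
def CoprimeOperator (S : Set (Module.End K V)) (U U' : Submodule K V) : Prop :=
  ∃ φ ∈ Submodule.span K S, ∃ P Q : K[X], IsCoprime P Q ∧ (∀ x ∈ U, aeval φ P x = 0) ∧ ∀ x ∈ U', aeval φ Q x = 0

/-- Some linear combination of the operators in `S` is the identity on `U` and zero on `U'`. -/
def SeparatingOperator (S : Set (Module.End K V)) (U U' : Submodule K V) : Prop :=
  ∃ φ ∈ Submodule.span K S, (∀ x ∈ U, φ x = x) ∧ ∀ x ∈ U', φ x = 0

/-- For `y` in `U` and `y'` in `U'` some linear combination `φ` of the operators in `S`, which may depend on `y` and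
`y'`, satisfies `φ y = y` and `φ y' = 0`. -/
def SeparatesClasses (S : Set (Module.End K V)) (U U' : Submodule K V) : Prop :=
  ∀ y ∈ U, ∀ y' ∈ U', ∃ φ ∈ Submodule.span K S, φ y = y ∧ φ y' = 0

/-- Some linear combination of the operators in `S` is the identity on `gr d` and zero on all other `gr i`. -/
def SplitsOff (S : Set (Module.End K V)) (gr : ℕ → Submodule K V) (d : ℕ) : Prop :=
  ∃ φ ∈ Submodule.span K S, (∀ x ∈ gr d, φ x = x) ∧ ∀ i, i ≠ d → ∀ x ∈ gr i, φ x = 0

end Alg

variable {k : Type u} [Field k] {𝒱 : VarClass k} {ops : CycleOps 𝒱}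

/-- The Künneth projector onto `H^d(X)` is a `K`-linear combination of operators induced by cycles. -/
def KunnethSpan (W : WeilCohomology.{u, v} ops) (X : 𝒱.Obj) (d : ℕ) : Prop :=
  SplitsOff (cycleOperators W X X.dim) (W.gr X) d

/-- `H^i(X)` and `H^j(X)` have no common factor under the algebraic correspondences. -/
def NoCommonAt (W : WeilCohomology.{u, v} ops) (X : 𝒱.Obj) (i j : ℕ) : Prop :=
  NoCommonFactor (cycleOperators W X X.dim) (W.gr X i) (W.gr X j)

/-- For each `y` in `H^i(X)` and `y'` in `H^j(X)` a combination of correspondences fixes `y` and kills `y'`. -/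
def SeparatesAt (W : WeilCohomology.{u, v} ops) (X : 𝒱.Obj) (i j : ℕ) : Prop :=
  SeparatesClasses (cycleOperators W X X.dim) (W.gr X i) (W.gr X j)

/-- One combination of correspondences has no common eigenvalue on `H^i(X)` and `H^j(X)`. -/
def CoprimeAt (W : WeilCohomology.{u, v} ops) (X : 𝒱.Obj) (i j : ℕ) : Prop :=
  CoprimeOperator (cycleOperators W X X.dim) (W.gr X i) (W.gr X j)

/-- The pairs of an even degree `i` and an odd degree `j` which have to be compared: `i + j < 2 dim X`, and none of the
degrees `i`, `j` and of the dual degrees `2 dim X - i`, `2 dim X - j` is in the set `D`. -/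
structure Critical (n : ℕ) (D : Set ℕ) (i j : ℕ) : Prop where
  even : Even i
  odd : Odd j
  sum : i + j < 2 * n
  notMem : i ∉ D ∧ j ∉ D
  dual : 2 * n - i ∉ D ∧ 2 * n - j ∉ D

/-- The property `p i j` holds for all critical pairs. -/
def ForCritical (n : ℕ) (D : Set ℕ) (p : ℕ → ℕ → Prop) : Prop := ∀ i j, Critical n D i j → p i j

/-- The following are equivalent: the sign conjecture for `X`; for all critical pairs `(i, j)`, `H^i(X)` and `H^j(X)` have
no common factor; the same in the order `(j, i)`; for all critical pairs, single classes are separated; for all critical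
pairs, some combination of correspondences has no common eigenvalue. -/
def SignForms (W : WeilCohomology.{u, v} ops) (X : 𝒱.Obj) (D : Set ℕ) : Prop :=
  [SignStd W X,
    ForCritical X.dim D (NoCommonAt W X),
    ForCritical X.dim D (fun i j => NoCommonAt W X j i),
    ForCritical X.dim D (SeparatesAt W X),
    ForCritical X.dim D (CoprimeAt W X)].TFAE

/-- The following are equivalent: the sign conjecture for `X`; `H^2(X)` and `H^3(X)` have no common factor; the same in the
order `(3, 2)`; classes in `H^2(X)` and `H^3(X)` are separated; some combination of correspondences has no common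
eigenvalue on `H^2(X)` and `H^3(X)`. -/
def ThreefoldForms (W : WeilCohomology.{u, v} ops) (X : 𝒱.Obj) : Prop :=
  [SignStd W X, NoCommonAt W X 2 3, NoCommonAt W X 3 2, SeparatesAt W X 2 3, CoprimeAt W X 2 3].TFAE

end Run7.h488.CF
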