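import Pool.Agent.Run7.h488.CF.Defs
import Pool.Agent.N536.SG.Geo

/-!
# The sign conjecture and common factors of the cohomology groups
-/

open CategoryTheory AlgebraicGeometry Polynomial

set_option autoImplicit false

universe u v

namespace Run7.h488.CF

section Lin

variable {K V : Type*} [Field K] [AddCommGroup V] [Module K V] {S : Set (Module.End K V)}
  {U U' : Submodule K V}

theorem stable_span {N : Submodule K V} (hN : Stable S N) :
    ∀ φ ∈ Submodule.span K S, ∀ x ∈ N, φ x ∈ N := by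
  intro φ hφ
  induction hφ using Submodule.span_induction with
  | mem φ hφ => exact hN φ hφ
  | zero => exact fun x _ => Submodule.zero_mem _
  | add φ ψ _ _ h1 h2 => exact fun x hx => Submodule.add_mem _ (h1 x hx) (h2 x hx)
  | smul a φ _ h => exact fun x hx => Submodule.smul_mem _ _ (h x hx)

/-- Pointwise separation excludes common factors. -/
theorem noCommon_of_sep (h : SeparatesClasses S U U') : NoCommonFactor S U U' := by
  intro N L hN hL hNs hLs g hg hgS
  have key : ∀ φ ∈ Submodule.span K S, ∀ (x x' : N) (y : V), y ∈ U' → (x' : V) = φ x → g x = L.mkQ y →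
      g x' = L.mkQ (φ y) := by
    intro φ hφ
    induction hφ using Submodule.span_induction with
    | mem φ hφ => exact hgS φ hφ
    | zero =>
      intro x x' y _ hx' _
      have : x' = 0 := Subtype.ext hx'
      rw [this, map_zero, LinearMap.zero_apply, map_zero]
    | add φ ψ hφ hψ h1 h2 =>
      intro x x' y hy hx' hxy
      have e1 := h1 x ⟨φ x, stable_span hNs φ hφ x x.2⟩ y hy rfl hxy
      have e2 := h2 x ⟨ψ x, stable_span hNs ψ hψ x x.2⟩ y hy rfl hxy
      have e : x' = ⟨φ x, stable_span hNs φ hφ x x.2⟩ + ⟨ψ x, stable_span hNs ψ hψ x x.2⟩ :=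
        Subtype.ext hx'
      rw [e, map_add, e1, e2, LinearMap.add_apply, map_add]
    | smul a φ hφ h1 =>
      intro x x' y hy hx' hxy
      have e1 := h1 x ⟨φ x, stable_span hNs φ hφ x x.2⟩ y hy rfl hxy
      have e : x' = a • ⟨φ x, stable_span hNs φ hφ x x.2⟩ := Subtype.ext hx'
      rw [e, map_smul, e1, LinearMap.smul_apply, map_smul]
  ext x
  obtain ⟨y, hy, hxy⟩ := hg x
  obtain ⟨φ, hφ, h1, h2⟩ := h x (hN x.2) y hy
  have := key φ hφ x x y hy h1.symm hxy
  rw [this, h2, map_zero]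
  rfl

/-- If there are no common factors then any two vectors are separated. -/
theorem sep_of_noCommon (h1 : (1 : Module.End K V) ∈ Submodule.span K S)
    (hmul : ∀ a ∈ Submodule.span K S, ∀ b ∈ Submodule.span K S, a * b ∈ Submodule.span K S)
    (hU : Stable S U) (hU' : Stable S U') (h : NoCommonFactor S U U') : SeparatesClasses S U U' := by
  intro y hy y' hy'
  -- the orbit of `y` and the image of its annihilator on `y'`
  let N : Submodule K V := (Submodule.span K S).map (LinearMap.applyₗ y)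
  let L : Submodule K V := ((Submodule.span K S) ⊓ LinearMap.ker (LinearMap.applyₗ y)).map (LinearMap.applyₗ y')
  have hN : ∀ v, v ∈ N ↔ ∃ φ ∈ Submodule.span K S, φ y = v := fun v => Iff.rfl
  have hL : ∀ v, v ∈ L ↔ ∃ φ, (φ ∈ Submodule.span K S ∧ φ y = 0) ∧ φ y' = v := fun v => Iff.rfl
  have hNU : N ≤ U := by
    rintro _ ⟨φ, hφ, rfl⟩
    exact stable_span hU φ hφ y hy
  have hLU : L ≤ U' := by
    rintro _ ⟨φ, hφ, rfl⟩
    exact stable_span hU' φ hφ.1 y' hy'
  have hNs : Stable S N := by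
    rintro ψ hψ _ ⟨φ, hφ, rfl⟩
    exact ⟨ψ * φ, hmul ψ (Submodule.subset_span hψ) φ hφ, rfl⟩
  have hLs : Stable S L := by
    intro ψ hψ v hv
    obtain ⟨φ, ⟨hφ, hφy⟩, rfl⟩ := (hL v).1 hv
    refine (hL _).2 ⟨ψ * φ, ⟨hmul ψ (Submodule.subset_span hψ) φ hφ, ?_⟩, rfl⟩
    rw [Module.End.mul_apply, hφy, map_zero]
  -- a linear section
  obtain ⟨f, hf⟩ : ∃ f : Submodule.span K S →ₗ[K] N, ∀ φ, (f φ : V) = (φ : Module.End K V) y :=
    ⟨((LinearMap.applyₗ y).comp (Submodule.span K S).subtype).codRestrict N fun φ => ⟨φ, φ.2, rfl⟩, fun φ => rfl⟩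
  have hfs : Function.Surjective f := by
    rintro ⟨_, φ, hφ, rfl⟩
    exact ⟨⟨φ, hφ⟩, Subtype.ext (hf _)⟩
  obtain ⟨s, hs⟩ := f.exists_rightInverse_of_surjective (LinearMap.range_eq_top.2 hfs)
  have hs' : ∀ x : N, ((s x : Module.End K V)) y = x := by
    intro x
    rw [← hf, ← LinearMap.comp_apply, hs, LinearMap.id_apply]
  let g : N →ₗ[K] V ⧸ L := L.mkQ ∘ₗ (LinearMap.applyₗ y') ∘ₗ (Submodule.span K S).subtype ∘ₗ s
  have hg : ∀ x : N, g x = L.mkQ ((s x : Module.End K V) y') := fun x => rfl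
  -- independence of the choice
  have hind : ∀ (x : N) (φ : Module.End K V), φ ∈ Submodule.span K S → φ y = x → g x = L.mkQ (φ y') := by
    intro x φ hφ hφx
    rw [hg, ← sub_eq_zero, ← map_sub, ← LinearMap.mem_ker, Submodule.ker_mkQ, hL]
    refine ⟨(s x : Module.End K V) - φ, ⟨Submodule.sub_mem _ (s x).2 hφ, ?_⟩, LinearMap.sub_apply _ _ _⟩
    rw [LinearMap.sub_apply, hs', hφx, sub_self]
  have h0 : g = 0 := by
    refine h N L hNU hLU hNs hLs g (fun x => ⟨_, stable_span hU' _ (s x).2 y' hy', hg x⟩) ?_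
    intro ψ hψ x x' z hz hx' hxz
    have e1 : g x' = L.mkQ ((ψ * (s x : Module.End K V)) y') := by
      refine hind x' _ (hmul ψ (Submodule.subset_span hψ) _ (s x).2) ?_
      rw [Module.End.mul_apply, hs', hx']
    rw [e1, Module.End.mul_apply, ← sub_eq_zero, ← map_sub, ← map_sub, ← LinearMap.mem_ker, Submodule.ker_mkQ]
    apply hLs ψ hψ
    rw [← Submodule.ker_mkQ L, LinearMap.mem_ker, map_sub, ← hg, hxz, sub_self]
  have h2 := hind ⟨y, 1, h1, rfl⟩ 1 h1 rfl
  rw [h0, LinearMap.zero_apply, Module.End.one_apply, eq_comm, ← LinearMap.mem_ker, Submodule.ker_mkQ, hL] at h2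
  obtain ⟨φ, ⟨hφ, hφy⟩, hφy'⟩ := h2
  refine ⟨1 - φ, Submodule.sub_mem _ h1 hφ, ?_, ?_⟩
  · rw [LinearMap.sub_apply, Module.End.one_apply, hφy, sub_zero]
  · rw [LinearMap.sub_apply, Module.End.one_apply, hφy', sub_self]

theorem aeval_mem (h1 : (1 : Module.End K V) ∈ Submodule.span K S)
    (hmul : ∀ a ∈ Submodule.span K S, ∀ b ∈ Submodule.span K S, a * b ∈ Submodule.span K S)
    {φ : Module.End K V} (hφ : φ ∈ Submodule.span K S) (P : K[X]) : aeval φ P ∈ Submodule.span K S := by
  have hpow : ∀ n : ℕ, φ ^ n ∈ Submodule.span K S := by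
    intro n
    induction n with
    | zero => rwa [pow_zero]
    | succ n ih => rw [pow_succ]; exact hmul _ ih _ hφ
  induction P using Polynomial.induction_on' with
  | add p q hp hq => rw [map_add]; exact Submodule.add_mem _ hp hq
  | monomial n a =>
    rw [aeval_monomial, ← Algebra.smul_def]
    exact Submodule.smul_mem _ _ (hpow n)

theorem separating_of_coprime (h1 : (1 : Module.End K V) ∈ Submodule.span K S)
    (hmul : ∀ a ∈ Submodule.span K S, ∀ b ∈ Submodule.span K S, a * b ∈ Submodule.span K S)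
    (h : CoprimeOperator S U U') : SeparatingOperator S U U' := by
  obtain ⟨φ, hφ, P, Q, ⟨a, b, hab⟩, hP, hQ⟩ := h
  refine ⟨aeval φ (b * Q), aeval_mem h1 hmul hφ _, fun x hx => ?_, fun x hx => ?_⟩
  · have e : b * Q = 1 - a * P := by rw [← hab]; ring
    rw [e, map_sub, map_one, map_mul, LinearMap.sub_apply, Module.End.one_apply, Module.End.mul_apply, hP x hx,
      map_zero, sub_zero]
  · rw [map_mul, Module.End.mul_apply, hQ x hx, map_zero]

theorem coprime_of_separating (h : SeparatingOperator S U U') : CoprimeOperator S U U' := by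
  obtain ⟨φ, hφ, h1, h2⟩ := h
  refine ⟨φ, hφ, X - 1, X, ⟨-1, 1, by ring⟩, fun x hx => ?_, fun x hx => ?_⟩
  · rw [map_sub, aeval_X, map_one, LinearMap.sub_apply, Module.End.one_apply, h1 x hx, sub_self]
  · rw [aeval_X, h2 x hx]

theorem separating_symm (h1 : (1 : Module.End K V) ∈ Submodule.span K S) (h : SeparatingOperator S U U') :
    SeparatingOperator S U' U := by
  obtain ⟨φ, hφ, h2, h3⟩ := h
  refine ⟨1 - φ, Submodule.sub_mem _ h1 hφ, fun x hx => ?_, fun x hx => ?_⟩
  · rw [LinearMap.sub_apply, Module.End.one_apply, h3 x hx, sub_zero]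
  · rw [LinearMap.sub_apply, Module.End.one_apply, h2 x hx, sub_self]

end Lin

open Pool.Agent.H914 VarClass Obj WeilCohomology Pool.Agent.TH133.PW Pool.Agent.N103.OC
  Pool.Agent.H447 Pool.Agent.N536.SG

variable {k : Type u} [Field k] {𝒱 : VarClass k} {ops : CycleOps 𝒱}
  {W : WeilCohomology.{u, v} ops} {X : 𝒱.Obj}

theorem one_mem_span (W : WeilCohomology.{u, v} ops) (X : 𝒱.Obj) :
    (1 : Module.End W.K (W.H X)) ∈ Submodule.span W.K (cycleOperators W X X.dim) := by
  rw [span_cycleOperators0]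
  exact KOp.id X

theorem mul_mem_span (W : WeilCohomology.{u, v} ops) (X : 𝒱.Obj) :
    ∀ a ∈ Submodule.span W.K (cycleOperators W X X.dim), ∀ b ∈ Submodule.span W.K (cycleOperators W X X.dim),
      (a * b : Module.End W.K (W.H X)) ∈ Submodule.span W.K (cycleOperators W X X.dim) := by
  intro a ha b hb
  rw [span_cycleOperators0] at *
  exact kop_mul ha hb

theorem gr_stable (W : WeilCohomology.{u, v} ops) (X : 𝒱.Obj) (i : ℕ) :
    Stable (cycleOperators W X X.dim) (W.gr X i) := by
  intro φ hφ x hx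
  have h : φ ∈ Submodule.span W.K (cycleOperators W X X.dim) := Submodule.subset_span hφ
  rw [span_cycleOperators0] at h
  exact kop_gr h i hx

theorem separating_iff {i j : ℕ} :
    SeparatingOperator (cycleOperators W X X.dim) (W.gr X i) (W.gr X j) ↔ SepDeg W X i j := by
  constructor
  · rintro ⟨φ, hφ, h1, h2⟩
    rw [span_cycleOperators0] at hφ
    exact ⟨φ, hφ, h1, h2⟩
  · rintro ⟨φ, hφ, h1, h2⟩
    refine ⟨φ, ?_, h1, h2⟩
    rw [span_cycleOperators0]
    exact hφ

theorem sepDeg_of_classes {i j : ℕ}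
    (h : SeparatesClasses (cycleOperators W X X.dim) (W.gr X i) (W.gr X j)) : SepDeg W X i j := by
  apply sepDeg_of_pointwise
  intro y hy y' hy'
  obtain ⟨φ, hφ, h1⟩ := h y hy y' hy'
  rw [span_cycleOperators0] at hφ
  exact ⟨φ, hφ, h1⟩

/-- **Two degrees**: equivalent forms of the separation. -/
theorem pair_tfae (W : WeilCohomology.{u, v} ops) (X : 𝒱.Obj) (i j : ℕ) :
    [SeparatingOperator (cycleOperators W X X.dim) (W.gr X i) (W.gr X j),
      SeparatesClasses (cycleOperators W X X.dim) (W.gr X i) (W.gr X j),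
      NoCommonFactor (cycleOperators W X X.dim) (W.gr X i) (W.gr X j),
      NoCommonFactor (cycleOperators W X X.dim) (W.gr X j) (W.gr X i),
      CoprimeOperator (cycleOperators W X X.dim) (W.gr X i) (W.gr X j)].TFAE := by
  have key : ∀ i j, SeparatingOperator (cycleOperators W X X.dim) (W.gr X i) (W.gr X j) ↔
      NoCommonFactor (cycleOperators W X X.dim) (W.gr X i) (W.gr X j) := by
    intro i j
    constructor
    · rintro ⟨φ, hφ, h1, h2⟩
      exact noCommon_of_sep fun y hy y' hy' => ⟨φ, hφ, h1 y hy, h2 y' hy'⟩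
    · intro h
      exact separating_iff.2 (sepDeg_of_classes (sep_of_noCommon (one_mem_span W X) (mul_mem_span W X)
        (gr_stable W X i) (gr_stable W X j) h))
  tfae_have 1 → 2 := by
    rintro ⟨φ, hφ, h1, h2⟩ y hy y' hy'
    exact ⟨φ, hφ, h1 y hy, h2 y' hy'⟩
  tfae_have 2 → 1 := fun h => separating_iff.2 (sepDeg_of_classes h)
  tfae_have 1 ↔ 3 := key i j
  tfae_have 1 → 4 := fun h => (key j i).1 (separating_symm (one_mem_span W X) h)
  tfae_have 4 → 1 := fun h => separating_symm (one_mem_span W X) ((key j i).2 h)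
  tfae_have 1 → 5 := coprime_of_separating
  tfae_have 5 → 1 := separating_of_coprime (one_mem_span W X) (mul_mem_span W X)
  tfae_finish

theorem sepDeg_of_kunneth_left {i j : ℕ} (hij : i ≠ j) (h : KunnethSpan W X i) : SepDeg W X i j := by
  obtain ⟨φ, hφ, h1, h2⟩ := h
  exact separating_iff.1 ⟨φ, hφ, h1, h2 j (Ne.symm hij)⟩

theorem sepDeg_symm {i j : ℕ} (h : SepDeg W X i j) : SepDeg W X j i :=
  separating_iff.1 (separating_symm (one_mem_span W X) (separating_iff.2 h))

theorem sepDeg_of_kunneth_right {i j : ℕ} (hij : i ≠ j) (h : KunnethSpan W X j) : SepDeg W X i j :=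
  sepDeg_symm (sepDeg_of_kunneth_left (Ne.symm hij) h)

theorem sepDeg_of_sign {i j : ℕ} (hi : Even i) (hj : Odd j) (h : SignStd W X) : SepDeg W X i j := by
  obtain ⟨P, hP, h1⟩ := h
  refine separating_iff.1 ⟨_, Submodule.subset_span ⟨P, hP, rfl⟩, fun x hx => ?_, fun x hx => ?_⟩
  · rw [h1 i x hx, if_pos hi]
  · rw [h1 j x hx, if_neg (Nat.not_even_iff_odd.2 hj)]

/-- The critical pairs suffice. -/
theorem sign_of_critical {D : Set ℕ} (hD : ∀ d ∈ D, KunnethSpan W X d)
    (h : ∀ i j, Critical X.dim D i j → SepDeg W X i j) : SignStd W X := by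
  apply signStd_of_sep
  -- the pairs with small sum
  have low : ∀ i j, Even i → Odd j → i ≤ 2 * X.dim → j ≤ 2 * X.dim → i + j < 2 * X.dim → SepDeg W X i j := by
    intro i j hi hj hi2 hj2 hij
    have hne : i ≠ j := by
      rintro rfl
      exact (Nat.not_even_iff_odd.2 hj) hi
    by_cases h1 : i ∈ D
    · exact sepDeg_of_kunneth_left hne (hD i h1)
    by_cases h2 : j ∈ D
    · exact sepDeg_of_kunneth_right hne (hD j h2)
    have hne' : 2 * X.dim - i ≠ 2 * X.dim - j := by omega
    by_cases h3 : 2 * X.dim - i ∈ D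
    · exact sepDeg_dual hi2 hj2 (sepDeg_of_kunneth_left hne' (hD _ h3))
    by_cases h4 : 2 * X.dim - j ∈ D
    · exact sepDeg_dual hi2 hj2 (sepDeg_of_kunneth_right hne' (hD _ h4))
    exact h i j ⟨hi, hj, hij, ⟨h1, h2⟩, ⟨h3, h4⟩⟩
  intro i hi j hj hie hjo
  by_cases hij : i + j < 2 * X.dim
  · exact low i j hie hjo hi hj hij
  · obtain ⟨a, ha⟩ := hie
    obtain ⟨b, hb⟩ := hjo
    apply sepDeg_dual hi hj
    apply low
    · exact ⟨X.dim - a, by omega⟩
    · exact ⟨X.dim - b - 1, by omega⟩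
    · omega
    · omega
    · omega

/-- **The sign conjecture and common factors.** -/
theorem sign_common (W : WeilCohomology.{u, v} ops) (X : 𝒱.Obj) (D : Set ℕ) (hD : ∀ d ∈ D, KunnethSpan W X d) :
    [SignStd W X,
      ForCritical X.dim D (NoCommonAt W X),
      ForCritical X.dim D (fun i j => NoCommonAt W X j i),
      ForCritical X.dim D (SeparatesAt W X),
      ForCritical X.dim D (CoprimeAt W X)].TFAE := by
  have h1 : SignStd W X ↔ ∀ i j, Critical X.dim D i j →
      SeparatingOperator (cycleOperators W X X.dim) (W.gr X i) (W.gr X j) :=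
    ⟨fun h i j hij => separating_iff.2 (sepDeg_of_sign hij.even hij.odd h),
      fun h => sign_of_critical hD fun i j hij => separating_iff.1 (h i j hij)⟩
  tfae_have 1 ↔ 2 := h1.trans (forall₂_congr fun i j => imp_congr_right fun _ => (pair_tfae W X i j).out 0 2)
  tfae_have 1 ↔ 3 := h1.trans (forall₂_congr fun i j => imp_congr_right fun _ => (pair_tfae W X i j).out 0 3)
  tfae_have 1 ↔ 4 := h1.trans (forall₂_congr fun i j => imp_congr_right fun _ => (pair_tfae W X i j).out 0 1)
  tfae_have 1 ↔ 5 := h1.trans (forall₂_congr fun i j => imp_congr_right fun _ => (pair_tfae W X i j).out 0 4)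
  tfae_finish

/-- **Threefolds.** -/
theorem sign_threefold (W : WeilCohomology.{u, v} ops) (X : 𝒱.Obj) (hX : X.dim = 3)
    (h0 : KunnethSpan W X 0) (h1 : KunnethSpan W X 1) :
    [SignStd W X, NoCommonAt W X 2 3, NoCommonAt W X 3 2, SeparatesAt W X 2 3, CoprimeAt W X 2 3].TFAE := by
  have hD : ∀ d ∈ ({0, 1} : Set ℕ), KunnethSpan W X d := by
    rintro d (rfl | rfl)
    · exact h0
    · exact h1
  have hcrit : ∀ i j, Critical X.dim {0, 1} i j ↔ i = 2 ∧ j = 3 := by
    intro i j
    rw [hX]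
    constructor
    · rintro ⟨⟨a, ha⟩, ⟨b, hb⟩, h3, ⟨h4, h5⟩, ⟨h6, h7⟩⟩
      simp only [Set.mem_insert_iff, Set.mem_singleton_iff, not_or] at h4 h5 h6 h7
      omega
    · rintro ⟨rfl, rfl⟩
      exact ⟨⟨1, rfl⟩, ⟨1, rfl⟩, by norm_num, by simp, by simp⟩
  have e : ∀ p : ℕ → ℕ → Prop, ForCritical X.dim {0, 1} p ↔ p 2 3 := by
    intro p
    constructor
    · exact fun h => h 2 3 ((hcrit 2 3).2 ⟨rfl, rfl⟩)
    · intro h i j hij
      obtain ⟨rfl, rfl⟩ := (hcrit i j).1 hij
      exact h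
  have := sign_common W X {0, 1} hD
  rw [e, e, e, e] at this
  exact this

end Run7.h488.CF
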